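import Pool.Agent.W761.CC.Stms

/-!
# CC-POIC: Poincare inequality in cubes with difference quotients
-/

set_option maxHeartbeats 400000

namespace Pool.Agent.W975.CC

open Pool.Agent.W761.CB Pool.Agent.W761.CC
open MeasureTheory Filter Topology
open scoped ENNReal

instance : Fact ((2 : ℝ≥0∞) ≠ ⊤) := ⟨by simp⟩

section

variable {n : ℕ} (r : ℝ) (f : (Fin n → ℝ) → ℝ)

lemma cube_eq (n : ℕ) (r : ℝ) : cube n r = Set.Icc (fun _ => -r) (fun _ => r) := by
  ext z
  simp only [cube, Set.mem_Icc, Pi.le_def, abs_le, Set.mem_ofPred_eq]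
  exact forall_and

lemma meas_cube (n : ℕ) (r : ℝ) : MeasurableSet (cube n r) := by
  rw [cube_eq]
  exact measurableSet_Icc

lemma vol_cube (n : ℕ) {r : ℝ} (hr : 0 ≤ r) :
    volume (cube n r) = ENNReal.ofReal ((2 * r) ^ n) := by
  rw [cube_eq, Real.volume_Icc_pi]
  simp only [Finset.prod_const, Finset.card_univ, Fintype.card_fin]
  rw [← ENNReal.ofReal_pow (by linarith)]
  congr 2
  ring

/-- the set of integration -/
def SS (a : Fin n → ℝ) : Set (Fin n → ℝ) := {z | z ∈ cube n r ∧ z + a ∈ cube n r}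

lemma meas_SS (a : Fin n → ℝ) : MeasurableSet (SS r a) :=
  (meas_cube n r).inter ((measurable_id.add_const a) (meas_cube n r))

/-- the difference -/
noncomputable def gg (a : Fin n → ℝ) : (Fin n → ℝ) → ℝ :=
  (SS r a).indicator fun z => f (z + a) - f z

lemma meas_gg (hf : Measurable f) (a : Fin n → ℝ) : Measurable (gg r f a) :=
  ((hf.comp (measurable_id.add_const a)).sub hf).indicator (meas_SS r a)

/-- the size of the difference -/
noncomputable def NN (a : Fin n → ℝ) : ℝ≥0∞ := eLpNorm (gg r f a) 2 volume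

lemma NN_sq (a : Fin n → ℝ) :
    NN r f a ^ 2 = ∫⁻ z in SS r a, ENNReal.ofReal ((f (z + a) - f z) ^ 2) := by
  unfold NN gg
  rw [eLpNorm_indicator_eq_eLpNorm_restrict (meas_SS r a)]
  have h1 := eLpNorm_nnreal_pow_eq_lintegral (f := fun z => f (z + a) - f z) (p := 2)
    (μ := (volume : Measure (Fin n → ℝ)).restrict (SS r a)) (by norm_num)
  have h2 : ((2 : NNReal) : ℝ) = ((2 : ℕ) : ℝ) := by norm_num
  rw [h2] at h1
  simp only [ENNReal.rpow_natCast] at h1
  have h3 : ((2 : NNReal) : ℝ≥0∞) = 2 := by norm_num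
  rw [h3] at h1
  rw [h1]
  refine lintegral_congr fun x => ?_
  rw [Real.enorm_eq_ofReal_abs, ← ENNReal.ofReal_pow (abs_nonneg _), sq_abs]

lemma NN_add (hf : Measurable f) (a b : Fin n → ℝ)
    (h : ∀ z, z ∈ cube n r → z + (a + b) ∈ cube n r → z + a ∈ cube n r) :
    NN r f (a + b) ≤ NN r f a + NN r f b := by
  unfold NN
  have h1 : eLpNorm (gg r f b) 2 volume = eLpNorm (fun z => gg r f b (z + a)) 2 volume := by
    have := eLpNorm_comp_measurePreserving (p := 2) (μ := (volume : Measure (Fin n → ℝ)))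
      (meas_gg r f hf b).aestronglyMeasurable (measurePreserving_add_right volume a)
    exact this.symm
  rw [h1]
  refine le_trans (eLpNorm_mono (g := fun z => gg r f a z + gg r f b (z + a)) ?_)
    (eLpNorm_add_le (meas_gg r f hf a).aestronglyMeasurable
      ((meas_gg r f hf b).comp (measurable_id.add_const a)).aestronglyMeasurable (by norm_num))
  intro z
  by_cases hz : z ∈ SS r (a + b)
  · have hza : z + a ∈ cube n r := h z hz.1 hz.2
    have h2 : z ∈ SS r a := ⟨hz.1, hza⟩
    have h3 : z + a ∈ SS r b := ⟨hza, by rw [add_assoc]; exact hz.2⟩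
    have e1 : gg r f (a + b) z = f (z + (a + b)) - f z := Set.indicator_of_mem hz _
    have e2 : gg r f a z = f (z + a) - f z := Set.indicator_of_mem h2 _
    have e3 : gg r f b (z + a) = f (z + a + b) - f (z + a) := Set.indicator_of_mem h3 _
    rw [e1, e2, e3, add_assoc]
    apply le_of_eq
    congr 1
    ring
  · have e1 : gg r f (a + b) z = 0 := Set.indicator_of_notMem hz _
    rw [e1, norm_zero]
    exact norm_nonneg _

lemma NN_zero : NN r f 0 = 0 := by
  unfold NN
  have h1 : gg r f 0 = 0 := by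
    funext z
    by_cases hz : z ∈ SS r (0 : Fin n → ℝ)
    · have e1 : gg r f 0 z = f (z + 0) - f z := Set.indicator_of_mem hz _
      rw [e1, add_zero, sub_self]
      rfl
    · exact Set.indicator_of_notMem hz _
  rw [h1, eLpNorm_zero]

lemma NN_neg (hf : Measurable f) (a : Fin n → ℝ) : NN r f (-a) = NN r f a := by
  unfold NN
  have h1 : eLpNorm (gg r f a) 2 volume = eLpNorm (fun z => gg r f a (z + -a)) 2 volume := by
    have := eLpNorm_comp_measurePreserving (p := 2) (μ := (volume : Measure (Fin n → ℝ)))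
      (meas_gg r f hf a).aestronglyMeasurable (measurePreserving_add_right volume (-a))
    exact this.symm
  rw [h1]
  refine eLpNorm_congr_norm_ae (Eventually.of_forall fun z => ?_)
  by_cases hz : z ∈ SS r (-a)
  · have h2 : z + -a ∈ SS r a := ⟨hz.2, by rw [neg_add_cancel_right]; exact hz.1⟩
    have e1 : gg r f (-a) z = f (z + -a) - f z := Set.indicator_of_mem hz _
    have e2 : gg r f a (z + -a) = f (z + -a + a) - f (z + -a) := Set.indicator_of_mem h2 _
    rw [e1, e2, neg_add_cancel_right, norm_sub_rev]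
  · have h2 : z + -a ∉ SS r a := by
      intro h
      apply hz
      refine ⟨?_, h.1⟩
      have := h.2
      rwa [neg_add_cancel_right] at this
    have e1 : gg r f (-a) z = 0 := Set.indicator_of_notMem hz _
    have e2 : gg r f a (z + -a) = 0 := Set.indicator_of_notMem h2 _
    rw [e1, e2]

/-- points of a segment parallel to an axis -/
lemma seg (c : Fin n) (s t : ℝ) (hs : 0 ≤ s) (ht : 0 ≤ t) (z : Fin n → ℝ) (h1 : z ∈ cube n r)
    (h2 : z + (Pi.single c s + Pi.single c t) ∈ cube n r) : z + Pi.single c s ∈ cube n r := by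
  intro d
  have h3 := abs_le.1 (h1 d)
  have h4 := abs_le.1 (h2 d)
  by_cases hd : d = c
  · subst hd
    simp only [Pi.add_apply, Pi.single_eq_same] at h4 ⊢
    rw [abs_le]
    constructor <;> linarith
  · simp only [Pi.add_apply, Pi.single_eq_of_ne hd, add_zero] at h4 ⊢
    exact h1 d

lemma NN_nsmul (hf : Measurable f) (c : Fin n) (h : ℝ) (hh : 0 ≤ h) (j : ℕ) :
    NN r f (Pi.single c (j * h)) ≤ j * NN r f (Pi.single c h) := by
  induction j with
  | zero =>
    have e : (Pi.single c (((0 : ℕ) : ℝ) * h) : Fin n → ℝ) = 0 := by simp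
    rw [e, NN_zero]
    exact bot_le
  | succ j ih =>
    have e : (Pi.single c (((j + 1 : ℕ) : ℝ) * h) : Fin n → ℝ) =
        Pi.single c ((j : ℝ) * h) + Pi.single c h := by
      rw [← Pi.single_add]
      congr 1
      push_cast
      ring
    rw [e]
    refine (NN_add r f hf _ _ fun z h1 h2 => seg r c _ _ (by positivity) hh z h1 h2).trans ?_
    push_cast
    rw [add_mul, one_mul]
    gcongr

lemma NN_tendsto (hf : BM f) (c : Fin n) {t : ℕ → ℝ} (ht : Tendsto t atTop (𝓝 0)) :
    Tendsto (fun k => NN r f (Pi.single c (t k))) atTop (𝓝 0) := by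
  obtain ⟨hfm, B, hB⟩ := hf
  have hfin : volume (cube n r) < ⊤ := by
    rw [cube_eq]
    exact isCompact_Icc.measure_lt_top
  have hF : MemLp ((cube n r).indicator f) 2 (volume : Measure (Fin n → ℝ)) := by
    rw [memLp_indicator_iff_restrict (meas_cube n r)]
    have : IsFiniteMeasure ((volume : Measure (Fin n → ℝ)).restrict (cube n r)) :=
      ⟨by rw [Measure.restrict_apply_univ]; exact hfin⟩
    exact MemLp.of_bound hfm.aestronglyMeasurable B (Eventually.of_forall hB)
  have h1 : Continuous fun h : Fin n → ℝ =>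
      edist (DomAddAct.mk h +ᵥ hF.toLp ((cube n r).indicator f))
        (hF.toLp ((cube n r).indicator f)) := by
    have h0 : Continuous fun h : Fin n → ℝ =>
        DomAddAct.mk h +ᵥ hF.toLp ((cube n r).indicator f) := by
      have : ContinuousVAdd (Fin n → ℝ)ᵈᵃᵃ (Lp ℝ 2 (volume : Measure (Fin n → ℝ))) :=
        MeasureTheory.Lp.instContinuousVAddDomAddAct
      have h2 : Continuous fun h : (Fin n → ℝ)ᵈᵃᵃ =>
          h +ᵥ hF.toLp ((cube n r).indicator f) := continuous_id.vadd continuous_const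
      exact h2.comp DomAddAct.continuous_mk
    exact h0.edist continuous_const
  have h3 : Continuous fun s : ℝ => (Pi.single c s : Fin n → ℝ) := by
    refine continuous_pi fun d => ?_
    by_cases hd : d = c
    · subst hd
      simp only [Pi.single_eq_same]
      exact continuous_id
    · simp only [Pi.single_eq_of_ne hd]
      exact continuous_const
  have h4 := ((h1.comp h3).tendsto 0).comp ht
  have h5 : ((fun h : Fin n → ℝ =>
      edist (DomAddAct.mk h +ᵥ hF.toLp ((cube n r).indicator f))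
        (hF.toLp ((cube n r).indicator f))) ∘ fun s : ℝ => (Pi.single c s : Fin n → ℝ)) 0 =
      0 := by
    show edist (DomAddAct.mk (Pi.single c (0 : ℝ) : Fin n → ℝ) +ᵥ
      hF.toLp ((cube n r).indicator f)) (hF.toLp ((cube n r).indicator f)) = 0
    rw [Pi.single_zero, DomAddAct.mk_zero, zero_vadd, edist_self]
  rw [h5] at h4
  refine tendsto_of_tendsto_of_tendsto_of_le_of_le tendsto_const_nhds h4
    (fun k => bot_le) fun k => ?_
  show NN r f (Pi.single c (t k)) ≤ edist (DomAddAct.mk (Pi.single c (t k) : Fin n → ℝ) +ᵥ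
      hF.toLp ((cube n r).indicator f)) (hF.toLp ((cube n r).indicator f))
  rw [DomAddAct.mk_vadd_toLp, Lp.edist_toLp_toLp]
  unfold NN
  refine eLpNorm_mono fun z => ?_
  by_cases hz : z ∈ SS r (Pi.single c (t k))
  · have e1 : gg r f (Pi.single c (t k)) z = f (z + Pi.single c (t k)) - f z :=
      Set.indicator_of_mem hz _
    have e2 : (cube n r).indicator f z = f z := Set.indicator_of_mem hz.1 _
    have e3 : (cube n r).indicator f ((Pi.single c (t k) : Fin n → ℝ) +ᵥ z) =
        f (z + Pi.single c (t k)) := by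
      rw [vadd_eq_add, add_comm]
      exact Set.indicator_of_mem hz.2 _
    rw [e1]
    show _ ≤ ‖(cube n r).indicator f ((Pi.single c (t k) : Fin n → ℝ) +ᵥ z) -
      (cube n r).indicator f z‖
    rw [e2, e3]
  · have e1 : gg r f (Pi.single c (t k)) z = 0 := Set.indicator_of_notMem hz _
    rw [e1, norm_zero]
    exact norm_nonneg _

/-- the energy in one direction -/
noncomputable def kc (c : Fin n) : ℝ≥0∞ := ⨆ k : ℕ, gk (cube n r) c k f

lemma NN_dyadic (c : Fin n) (k : ℕ) : NN r f (Pi.single c ((2 : ℝ)⁻¹ ^ k)) ≤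
      ENNReal.ofReal ((2 : ℝ)⁻¹ ^ k) * (kc r f c) ^ (1 / 2 : ℝ) := by
  have h1 : (2 ^ k * NN r f (Pi.single c ((2 : ℝ)⁻¹ ^ k))) ^ 2 ≤ kc r f c := by
    rw [mul_pow, NN_sq, ← pow_mul, mul_comm k 2, pow_mul, show (2 : ℝ≥0∞) ^ 2 = 4 by norm_num]
    exact le_iSup (fun k : ℕ => gk (cube n r) c k f) k
  have h2 : 2 ^ k * NN r f (Pi.single c ((2 : ℝ)⁻¹ ^ k)) ≤ (kc r f c) ^ (1 / 2 : ℝ) := by
    have := ENNReal.rpow_le_rpow h1 (show (0 : ℝ) ≤ 1 / 2 by norm_num)
    rwa [← ENNReal.rpow_natCast, ← ENNReal.rpow_mul, show ((2 : ℕ) : ℝ) * (1 / 2) = 1 by norm_num,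
      ENNReal.rpow_one] at this
  have h3 : ENNReal.ofReal ((2 : ℝ)⁻¹ ^ k) = (2 ^ k : ℝ≥0∞)⁻¹ := by
    rw [inv_pow, ENNReal.ofReal_inv_of_pos (by positivity), ENNReal.ofReal_pow (by norm_num)]
    norm_num
  rw [h3]
  calc NN r f (Pi.single c ((2 : ℝ)⁻¹ ^ k))
      = (2 ^ k : ℝ≥0∞)⁻¹ * (2 ^ k * NN r f (Pi.single c ((2 : ℝ)⁻¹ ^ k))) := by
        rw [← mul_assoc, ENNReal.inv_mul_cancel (by positivity) (by simp), one_mul]
    _ ≤ _ := by gcongr

lemma NN_line0 (hf : BM f) (c : Fin n) (t : ℝ) (ht : 0 ≤ t) : NN r f (Pi.single c t) ≤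
      ENNReal.ofReal t * (kc r f c) ^ (1 / 2 : ℝ) := by
  set j : ℕ → ℕ := fun k => ⌊t * 2 ^ k⌋₊ with hj
  set e : ℕ → ℝ := fun k => t - j k * (2 : ℝ)⁻¹ ^ k with he
  have hp : ∀ k : ℕ, (2 : ℝ)⁻¹ ^ k * 2 ^ k = 1 := by
    intro k; rw [← mul_pow]; norm_num
  have hjt : ∀ k, (j k : ℝ) * (2 : ℝ)⁻¹ ^ k ≤ t := by
    intro k
    have := Nat.floor_le (show 0 ≤ t * 2 ^ k by positivity)
    calc (j k : ℝ) * (2 : ℝ)⁻¹ ^ k ≤ (t * 2 ^ k) * (2 : ℝ)⁻¹ ^ k := by gcongr
      _ = t * ((2 : ℝ)⁻¹ ^ k * 2 ^ k) := by ring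
      _ = t := by rw [hp, mul_one]
  have hek : ∀ k, 0 ≤ e k := fun k => by simp only [he]; linarith [hjt k]
  have he0 : Tendsto e atTop (𝓝 0) := by
    have h1 : Tendsto (fun k : ℕ => (2 : ℝ)⁻¹ ^ k) atTop (𝓝 0) :=
      tendsto_pow_atTop_nhds_zero_of_lt_one (by norm_num) (by norm_num)
    refine squeeze_zero hek (fun k => ?_) h1
    have := (Nat.lt_floor_add_one (t * 2 ^ k)).le
    have h2 : t ≤ (j k + 1) * (2 : ℝ)⁻¹ ^ k := by
      calc t = (t * 2 ^ k) * (2 : ℝ)⁻¹ ^ k := by
            rw [mul_assoc, mul_comm ((2 : ℝ) ^ k), hp, mul_one]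
        _ ≤ _ := by gcongr
    simp only [he]
    linarith
  have hle : ∀ k, NN r f (Pi.single c t) ≤
      ENNReal.ofReal t * (kc r f c) ^ (1 / 2 : ℝ) + NN r f (Pi.single c (e k)) := by
    intro k
    have h1 : (Pi.single c t : Fin n → ℝ) =
        Pi.single c (j k * (2 : ℝ)⁻¹ ^ k) + Pi.single c (e k) := by
      rw [← Pi.single_add]
      congr 1
      simp only [he]; ring
    rw [h1]
    refine (NN_add r f hf.meas _ _ fun z h1 h2 =>
      seg r c _ _ (by positivity) (hek k) z h1 h2).trans ?_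
    gcongr
    refine (NN_nsmul r f hf.meas c _ (by positivity) _).trans ?_
    calc (j k : ℝ≥0∞) * NN r f (Pi.single c ((2 : ℝ)⁻¹ ^ k))
        ≤ (j k : ℝ≥0∞) * (ENNReal.ofReal ((2 : ℝ)⁻¹ ^ k) * (kc r f c) ^ (1 / 2 : ℝ)) := by
          gcongr
          exact NN_dyadic r f c k
      _ = ENNReal.ofReal (j k * (2 : ℝ)⁻¹ ^ k) * (kc r f c) ^ (1 / 2 : ℝ) := by
          rw [ENNReal.ofReal_mul (by positivity), ENNReal.ofReal_natCast, mul_assoc]
      _ ≤ _ := by
          gcongr
          exact hjt k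
  have hlim := (NN_tendsto r f hf c he0).const_add
    (ENNReal.ofReal t * (kc r f c) ^ (1 / 2 : ℝ))
  rw [add_zero] at hlim
  exact ge_of_tendsto' hlim hle

lemma NN_line (hf : BM f) (c : Fin n) (t : ℝ) : NN r f (Pi.single c t) ≤
      ENNReal.ofReal |t| * (kc r f c) ^ (1 / 2 : ℝ) := by
  rcases le_total 0 t with h | h
  · rw [abs_of_nonneg h]; exact NN_line0 r f hf c t h
  · rw [abs_of_nonpos h, ← NN_neg r f hf.meas, ← Pi.single_neg]
    exact NN_line0 r f hf c (-t) (by linarith)

/-- one coordinate at a time -/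
lemma NN_sum (hf : BM f) (τ : Fin n → ℝ) (s : Finset (Fin n)) :
    NN r f (∑ c ∈ s, Pi.single c (τ c)) ≤ ∑ c ∈ s, NN r f (Pi.single c (τ c)) := by
  classical
  have hs : ∀ (s : Finset (Fin n)) (d : Fin n), (∑ c ∈ s, (Pi.single c (τ c) : Fin n → ℝ)) d =
      if d ∈ s then τ d else 0 := by
    intro s d
    rw [Finset.sum_apply]
    by_cases hd : d ∈ s
    · rw [if_pos hd, Finset.sum_eq_single_of_mem d hd]
      · simp
      · intro b _ hb
        exact Pi.single_eq_of_ne hb.symm _
    · rw [if_neg hd]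
      refine Finset.sum_eq_zero fun b hb => Pi.single_eq_of_ne ?_ _
      rintro rfl
      exact hd hb
  induction s using Finset.induction_on with
  | empty => simp [NN_zero]
  | insert a s ha ih =>
    rw [Finset.sum_insert ha, Finset.sum_insert ha, add_comm (Pi.single a (τ a) : Fin n → ℝ),
      add_comm (NN r f _)]
    refine (NN_add r f hf.meas _ _ ?_).trans (by gcongr)
    intro z h1 h2 d
    have h3 := h1 d
    have h4 := h2 d
    simp only [Pi.add_apply] at h4 ⊢
    rw [hs] at h4 ⊢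
    by_cases hd : d ∈ s
    · have hda : d ≠ a := by
        rintro rfl
        exact ha hd
      rw [if_pos hd] at h4 ⊢
      rw [Pi.single_eq_of_ne hda, add_zero] at h4
      exact h4
    · rw [if_neg hd, add_zero]
      exact h3

lemma NN_le (hf : BM f) {R : ℝ} (hR : 0 ≤ R) {τ : Fin n → ℝ} (hτ : τ ∈ cube n R) :
    NN r f τ ^ 2 ≤ n * ENNReal.ofReal (R ^ 2) * gr (cube n r) f := by
  have h0 : τ = ∑ c, (Pi.single c (τ c) : Fin n → ℝ) := (Finset.univ_sum_single τ).symm
  have h1 : NN r f τ ≤ ∑ c, ENNReal.ofReal R * (kc r f c) ^ (1 / 2 : ℝ) := by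
    conv_lhs => rw [h0]
    refine (NN_sum r f hf τ Finset.univ).trans (Finset.sum_le_sum fun c _ =>
      (NN_line r f hf c _).trans ?_)
    gcongr
    exact hτ c
  calc NN r f τ ^ 2
      ≤ (∑ c, ENNReal.ofReal R * (kc r f c) ^ (1 / 2 : ℝ)) ^ 2 := by gcongr
    _ ≤ n * ∑ c, (ENNReal.ofReal R * (kc r f c) ^ (1 / 2 : ℝ)) ^ 2 := by
        have := ENNReal.rpow_sum_le_const_mul_sum_rpow (Finset.univ : Finset (Fin n))
          (fun c => ENNReal.ofReal R * (kc r f c) ^ (1 / 2 : ℝ)) (p := ((2 : ℕ) : ℝ)) (by norm_num)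
        simp only [ENNReal.rpow_natCast] at this
        rw [show (((2 : ℕ) : ℝ) - 1) = 1 by norm_num, ENNReal.rpow_one] at this
        simpa using this
    _ = n * ENNReal.ofReal (R ^ 2) * gr (cube n r) f := by
        unfold gr
        rw [mul_assoc]
        congr 1
        rw [Finset.mul_sum]
        apply Finset.sum_congr rfl
        intro c _
        rw [mul_pow, ← ENNReal.rpow_natCast ((kc r f c) ^ (1 / 2 : ℝ)), ← ENNReal.rpow_mul,
          show (1 / 2 : ℝ) * ((2 : ℕ) : ℝ) = 1 by norm_num, ENNReal.rpow_one]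
        rw [ENNReal.ofReal_pow hR]
        rfl

end

theorem main : S_POIC := by
  intro n _
  refine ⟨n * 4 ^ (n + 1), by positivity, fun r hr f hf => ?_⟩
  have hDm := meas_cube n r
  have e1 : ∫⁻ x in cube n r, ∫⁻ y in cube n r, ENNReal.ofReal ((f x - f y) ^ 2) =
      ∫⁻ x, ∫⁻ τ, (SS r τ).indicator (fun z => ENNReal.ofReal ((f (z + τ) - f z) ^ 2)) x := by
    rw [← lintegral_indicator hDm]
    refine lintegral_congr fun x => ?_
    by_cases hx : x ∈ cube n r
    · rw [Set.indicator_of_mem hx, ← lintegral_indicator hDm,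
        ← lintegral_add_left_eq_self _ x]
      refine lintegral_congr fun τ => ?_
      by_cases hy : x + τ ∈ cube n r
      · have hS : x ∈ SS r τ := ⟨hx, hy⟩
        rw [Set.indicator_of_mem hy, Set.indicator_of_mem hS]
        congr 1
        ring
      · have hS : x ∉ SS r τ := fun h => hy h.2
        rw [Set.indicator_of_notMem hy, Set.indicator_of_notMem hS]
    · rw [Set.indicator_of_notMem hx]
      symm
      have : ∀ τ, (SS r τ).indicator
          (fun z => ENNReal.ofReal ((f (z + τ) - f z) ^ 2)) x = 0 := by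
        intro τ
        exact Set.indicator_of_notMem (fun h => hx h.1) _
      simp only [this, lintegral_zero]
  have hSm : MeasurableSet {p : (Fin n → ℝ) × (Fin n → ℝ) | p.1 ∈ SS r p.2} := by
    have h1 : MeasurableSet {p : (Fin n → ℝ) × (Fin n → ℝ) | p.1 ∈ cube n r} :=
      measurable_fst hDm
    have h2 : MeasurableSet {p : (Fin n → ℝ) × (Fin n → ℝ) | p.1 + p.2 ∈ cube n r} :=
      (measurable_fst.add measurable_snd) hDm
    exact h1.inter h2
  have hmeas : Measurable (Function.uncurry fun (x τ : Fin n → ℝ) =>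
      (SS r τ).indicator (fun z => ENNReal.ofReal ((f (z + τ) - f z) ^ 2)) x) := by
    have h1 : (Function.uncurry fun (x τ : Fin n → ℝ) =>
        (SS r τ).indicator (fun z => ENNReal.ofReal ((f (z + τ) - f z) ^ 2)) x) =
        {p : (Fin n → ℝ) × (Fin n → ℝ) | p.1 ∈ SS r p.2}.indicator
          fun p => ENNReal.ofReal ((f (p.1 + p.2) - f p.1) ^ 2) := by
      funext p
      by_cases hp : p.1 ∈ SS r p.2
      · have hp' : p ∈ {p : (Fin n → ℝ) × (Fin n → ℝ) | p.1 ∈ SS r p.2} := hp
        rw [Set.indicator_of_mem hp', Function.uncurry_def]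
        exact Set.indicator_of_mem hp
          (fun z => ENNReal.ofReal ((f (z + p.2) - f z) ^ 2))
      · have hp' : p ∉ {p : (Fin n → ℝ) × (Fin n → ℝ) | p.1 ∈ SS r p.2} := hp
        rw [Set.indicator_of_notMem hp', Function.uncurry_def]
        exact Set.indicator_of_notMem hp
          (fun z => ENNReal.ofReal ((f (z + p.2) - f z) ^ 2))
    rw [h1]
    refine Measurable.indicator ?_ hSm
    exact (((hf.meas.comp (measurable_fst.add measurable_snd)).sub
      (hf.meas.comp measurable_fst)).pow_const 2).ennreal_ofReal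
  rw [e1, lintegral_lintegral_swap hmeas.aemeasurable]
  have e2 : ∀ τ : Fin n → ℝ, ∫⁻ x, (SS r τ).indicator
      (fun z => ENNReal.ofReal ((f (z + τ) - f z) ^ 2)) x ≤
      (cube n (2 * r)).indicator (fun _ =>
        n * ENNReal.ofReal ((2 * r) ^ 2) * gr (cube n r) f) τ := by
    intro τ
    by_cases hτ : τ ∈ cube n (2 * r)
    · rw [Set.indicator_of_mem hτ, lintegral_indicator (meas_SS r τ), ← NN_sq]
      exact NN_le r f hf (by linarith) hτ
    · have h1 : ∀ x, (SS r τ).indicator
          (fun z => ENNReal.ofReal ((f (z + τ) - f z) ^ 2)) x = 0 := by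
        intro x
        refine Set.indicator_of_notMem (fun h => hτ ?_) _
        intro d
        have h2 := abs_le.1 (h.1 d)
        have h3 := abs_le.1 (h.2 d)
        simp only [Pi.add_apply] at h3
        rw [abs_le]
        constructor <;> linarith
      simp only [h1, lintegral_zero]
      exact bot_le
  refine (lintegral_mono e2).trans ?_
  rw [lintegral_indicator (meas_cube n _), setLIntegral_const, vol_cube n (by linarith)]
  rw [mul_right_comm]
  gcongr
  rw [← ENNReal.ofReal_natCast, ← ENNReal.ofReal_mul (by positivity),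
    ← ENNReal.ofReal_mul (by positivity)]
  apply ENNReal.ofReal_le_ofReal
  apply le_of_eq
  have h4 : (2 * (2 * r)) ^ n = 4 ^ n * r ^ n := by
    rw [← mul_pow]
    congr 1
    ring
  rw [h4]
  ring

end Pool.Agent.W975.CC
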